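import Pool.Agent.H380FS.Wt

/-!
# The alternating chain sum identity for every isomorphism invariant weight

The identity `k(F, α) = ∑_σ (-1)^{|σ|} k(N_F(σ), α(σ))` holds when `z(k_α H)` is replaced by an
ARBITRARY isomorphism invariant function `f(H, α)` of a group `H` and a class `α ∈ H²(H, kˣ)`.
-/

set_option autoImplicit false

namespace Pool.Agent.Results.MP_3359e9_al.EveryWeight

open Pool.Agent.H380FS

universe u v

/-- **The alternating chain sum identity for every weight.** Let `F` be a saturated fusion system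
on a nontrivial `p`-group `S`, `k` any field, `α = (α_Q)` a family of classes
`α_Q ∈ H²(Out_F(Q), kˣ)` which is invariant under the isomorphisms of `F` between centric
subgroups, and `f` a function of pairs (group, class) with values in `ℕ` which is invariant under
isomorphisms. With `w_f(F, α) = ∑_Q f(Out_F(Q), α_Q)` and `k_f(F, α) = ∑_x w_f(C_F(x), α(x))`,
`k_f(F, α) = ∑_σ (-1)^{|σ|} k_f(N_F(σ), α(σ))`. The second part is the case `f(H, α) = z(k_α H)`
of the question. -/
theorem result (p : ℕ) [Fact p.Prime] (k : Type v) [Field k] {G : Type u} [Group G] [Finite G]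
    (F : FusionSystem G) (hp : IsPGroup p F.S) (hS : F.S ≠ ⊥) (hF : F.IsSaturated p)
    (α : F.Family k) (hα : α.IsoInvariant)
    -- `𝒞` is a set of representatives of the isomorphism classes of fully normalized normal chains
    (𝒞 : Finset (Set (Subgroup G)))
    (h𝒞 : ∀ σ ∈ 𝒞, F.IsNormalChain σ ∧ FullyNormalizedChain F σ)
    (h𝒞' : ∀ σ, F.IsNormalChain σ → FullyNormalizedChain F σ →
      ∃! τ, τ ∈ 𝒞 ∧ F.ChainIso σ τ) :
    (∀ W : Weight.{u, v} k, ChainSum W F α 𝒞) ∧ ChainSum (zWeight.{u, v} k) F α 𝒞 := by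
  have key : ∀ W : Weight.{u, v} k, ChainSum W F α 𝒞 := fun W =>
    letI := W
    FusionSystem.alternating_sum hF hp hS hα 𝒞 h𝒞 h𝒞'
  exact ⟨key, key _⟩

end Pool.Agent.Results.MP_3359e9_al.EveryWeight
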